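import Pool.Agent.Helper10.RC.Basic

/-!
# Packet RC-TC2 (MP_b55b7c_an): tracial comparison in the 2-norm
-/

open scoped ENNReal NNReal InnerProductSpace ComplexOrder
open Filter Topology

attribute [-instance] CStarMatrix.instAlgebra CStarMatrix.instModule CStarMatrix.instSMul
  CStarMatrix.instMulAction CStarMatrix.instDistribMulAction

noncomputable section
namespace RC
universe u

namespace PkTC2

/-- the inverse square root, cut off near zero -/
def FF (δ t : ℝ) : ℝ := (Real.sqrt (max t δ))⁻¹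

theorem FF_cont {δ : ℝ} (hδ : 0 < δ) : Continuous (FF δ) := by
  unfold FF
  apply Continuous.inv₀
  · fun_prop
  · intro t
    exact (Real.sqrt_pos.mpr (lt_of_lt_of_le hδ (le_max_right _ _))).ne'

theorem FF_sq {δ : ℝ} (hδ : 0 < δ) (t : ℝ) : FF δ t * t * FF δ t = t / max t δ := by
  unfold FF
  have h : 0 < max t δ := lt_of_lt_of_le hδ (le_max_right _ _)
  have hs : Real.sqrt (max t δ) * Real.sqrt (max t δ) = max t δ := Real.mul_self_sqrt h.le
  have hs0 : Real.sqrt (max t δ) ≠ 0 := (Real.sqrt_pos.mpr h).ne'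
  calc (Real.sqrt (max t δ))⁻¹ * t * (Real.sqrt (max t δ))⁻¹
      = t / (Real.sqrt (max t δ) * Real.sqrt (max t δ)) := by
        field_simp
    _ = t / max t δ := by rw [hs]

theorem approx {D : Type u} [CStarAlgebra D] [PartialOrder D] [StarOrderedRing D] (b : D)
    (hb : 0 ≤ b) (δ : ℝ) (hδ : 0 < δ) :
    ∃ m : D, IsSelfAdjoint m ∧ m * b = b * m ∧ ‖m * b * m‖ ≤ 1 ∧ ‖b - m * b * m * b‖ ≤ δ := by
  have hsa : IsSelfAdjoint b := hb.isSelfAdjoint
  have hF := FF_cont hδ
  have hid : cfc (fun t : ℝ => t) b = b := cfc_id' ℝ b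
  have hmb : cfc (FF δ) b * b = cfc (fun t : ℝ => FF δ t * t) b := by
    have : cfc (FF δ) b * b = cfc (FF δ) b * cfc (fun t : ℝ => t) b := by rw [hid]
    rw [this, ← cfc_mul (FF δ) (fun t : ℝ => t) b hF.continuousOn continuousOn_id]
  have hbm : b * cfc (FF δ) b = cfc (fun t : ℝ => FF δ t * t) b := by
    have : b * cfc (FF δ) b = cfc (fun t : ℝ => t) b * cfc (FF δ) b := by rw [hid]
    rw [this, ← cfc_mul (fun t : ℝ => t) (FF δ) b continuousOn_id hF.continuousOn]
    apply cfc_congr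
    intro t _
    show t * FF δ t = FF δ t * t
    ring
  have hg : cfc (FF δ) b * b * cfc (FF δ) b = cfc (fun t : ℝ => FF δ t * t * FF δ t) b := by
    rw [hmb, ← cfc_mul (fun t : ℝ => FF δ t * t) (FF δ) b
      (hF.mul continuous_id).continuousOn hF.continuousOn]
  have hgb : cfc (FF δ) b * b * cfc (FF δ) b * b
      = cfc (fun t : ℝ => FF δ t * t * FF δ t * t) b := by
    rw [hg]
    have : cfc (fun t : ℝ => FF δ t * t * FF δ t) b * b
        = cfc (fun t : ℝ => FF δ t * t * FF δ t) b * cfc (fun t : ℝ => t) b := by rw [hid]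
    rw [this, ← cfc_mul (fun t : ℝ => FF δ t * t * FF δ t) (fun t : ℝ => t) b
      ((hF.mul continuous_id).mul hF).continuousOn continuousOn_id]
  have hdiff : b - cfc (FF δ) b * b * cfc (FF δ) b * b
      = cfc (fun t : ℝ => t - FF δ t * t * FF δ t * t) b := by
    rw [hgb]
    have : b - cfc (fun t : ℝ => FF δ t * t * FF δ t * t) b
        = cfc (fun t : ℝ => t) b - cfc (fun t : ℝ => FF δ t * t * FF δ t * t) b := by rw [hid]
    rw [this, ← cfc_sub (fun t : ℝ => t) (fun t : ℝ => FF δ t * t * FF δ t * t) b continuousOn_id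
      (((hF.mul continuous_id).mul hF).mul continuous_id).continuousOn]
  have hspec : ∀ t ∈ spectrum ℝ b, 0 ≤ t := fun t ht => spectrum_nonneg_of_nonneg hb ht
  refine ⟨cfc (FF δ) b, cfc_predicate (FF δ) b, by rw [hmb, hbm], ?_, ?_⟩
  · rw [hg]
    apply norm_cfc_le zero_le_one
    intro t ht
    have ht0 := hspec t ht
    have hm : 0 < max t δ := lt_of_lt_of_le hδ (le_max_right _ _)
    rw [FF_sq hδ, Real.norm_of_nonneg (div_nonneg ht0 hm.le), div_le_one hm]
    exact le_max_left _ _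
  · rw [hdiff]
    apply norm_cfc_le hδ.le
    intro t ht
    have ht0 := hspec t ht
    have hm : 0 < max t δ := lt_of_lt_of_le hδ (le_max_right _ _)
    rw [FF_sq hδ]
    rcases le_total δ t with h | h
    · rw [max_eq_left h]
      have : t / t * t = t := by
        rw [div_mul_cancel₀]
        exact (lt_of_lt_of_le hδ h).ne'
      rw [this, sub_self, norm_zero]
      exact hδ.le
    · rw [max_eq_right h]
      have h1 : 0 ≤ t / δ * t := mul_nonneg (div_nonneg ht0 hδ.le) ht0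
      have h2 : t / δ * t ≤ t := by
        have : t / δ ≤ 1 := (div_le_one hδ).mpr h
        nlinarith
      rw [Real.norm_of_nonneg (by linarith)]
      linarith

section op
variable {H : Type u} [NormedAddCommGroup H] [InnerProductSpace ℂ H] [CompleteSpace H]

theorem star_cent {S : Set (H →L[ℂ] H)} (hS : ∀ x ∈ S, star x ∈ S) {x : H →L[ℂ] H}
    (hx : x ∈ S.centralizer) : star x ∈ S.centralizer := by
  intro s hs
  have := hx (star s) (hS s hs)
  have h2 := congrArg star this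
  rw [star_mul, star_mul, star_star] at h2
  exact h2.symm

/-- The support projection maps into the closure of the range. -/
theorem mem_closure_range (Y q : H →L[ℂ] H) (hq : ∀ y : H →L[ℂ] H, y * Y = 0 → y * q = 0)
    (ξ : H) : q ξ ∈ closure (Set.range fun ζ => Y ζ) := by
  set K : Submodule ℂ H := (LinearMap.range (Y : H →ₗ[ℂ] H)).topologicalClosure with hK
  have h1 : (1 - K.starProjection) * Y = 0 := by
    ext ζ
    have hm : Y ζ ∈ K := Submodule.le_topologicalClosure _ ⟨ζ, rfl⟩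
    show Y ζ - K.starProjection (Y ζ) = 0
    rw [Submodule.starProjection_eq_self_iff.mpr hm, sub_self]
  have h2 := hq _ h1
  have h3 : q ξ - K.starProjection (q ξ) = 0 := by
    have := congrArg (fun T : H →L[ℂ] H => T ξ) h2
    exact this
  have h4 : q ξ ∈ K := Submodule.starProjection_eq_self_iff.mp (sub_eq_zero.mp h3).symm
  exact h4

theorem proj_norm_le {p : H →L[ℂ] H} (hp : IsStarProjection p) : ‖p‖ ≤ 1 := hp.norm_le

theorem q_conv (Y q : H →L[ℂ] H) (hqY : q * Y = Y) (hYs : star Y = Y) (hqs : IsStarProjection q)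
    (hq : ∀ y : H →L[ℂ] H, y * Y = 0 → y * q = 0) (ξ : H) (ε : ℝ) (hε : 0 < ε) :
    ∃ δ : ℝ, 0 < δ ∧ ∀ M : H →L[ℂ] H, M * Y = Y * M → ‖M * Y * M‖ ≤ 1 →
      ‖Y - M * Y * M * Y‖ ≤ δ → ‖(q - M * Y * M) ξ‖ < ε := by
  have hmem := mem_closure_range Y q hq ξ
  rw [Metric.mem_closure_iff] at hmem
  obtain ⟨_, ⟨ζ, rfl⟩, hζ⟩ := hmem (ε / 4) (by linarith)
  rw [dist_eq_norm] at hζ
  refine ⟨ε / (4 * (‖ζ‖ + 1)), by positivity, ?_⟩
  intro M hM h1 h2
  have hYq : Y * q = Y := by
    have := congrArg star hqY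
    rw [star_mul, hYs, hqs.isSelfAdjoint.star_eq] at this
    exact this
  have hTq : M * Y * M * q = M * Y * M := by
    have : M * Y * M = M * M * Y := by rw [mul_assoc, ← hM, ← mul_assoc]
    rw [this, mul_assoc, hYq]
  set T : H →L[ℂ] H := M * Y * M with hT
  have e : (q - T) ξ = (q ξ - Y ζ) + (Y - T * Y) ζ + T (Y ζ - q ξ) := by
    have h3 : T ξ = T (q ξ) := by
      conv_lhs => rw [← hTq]
      rfl
    show q ξ - T ξ = (q ξ - Y ζ) + (Y ζ - T (Y ζ)) + T (Y ζ - q ξ)
    rw [h3, map_sub]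
    abel
  have n1 : ‖(Y - T * Y) ζ‖ ≤ ε / 4 := by
    refine ((Y - T * Y).le_opNorm ζ).trans ?_
    refine (mul_le_mul_of_nonneg_right h2 (norm_nonneg _)).trans ?_
    rw [div_mul_eq_mul_div, div_le_div_iff₀ (by positivity) (by positivity)]
    nlinarith [norm_nonneg ζ]
  have n2 : ‖T (Y ζ - q ξ)‖ ≤ ‖q ξ - Y ζ‖ := by
    refine (T.le_opNorm _).trans ?_
    rw [norm_sub_rev]
    exact mul_le_of_le_one_left (norm_nonneg _) h1
  rw [e]
  calc ‖(q ξ - Y ζ) + (Y - T * Y) ζ + T (Y ζ - q ξ)‖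
      ≤ ‖(q ξ - Y ζ) + (Y - T * Y) ζ‖ + ‖T (Y ζ - q ξ)‖ := norm_add_le _ _
    _ ≤ ‖q ξ - Y ζ‖ + ‖(Y - T * Y) ζ‖ + ‖T (Y ζ - q ξ)‖ := by
        gcongr
        exact norm_add_le _ _
    _ < ε := by linarith

end op

end PkTC2

open PkTC2

theorem tC2P (h1 : GnsP.{u}) (h2 : RepFVP.{u}) (h3 : RankP.{u}) (h4 : PolarP.{u}) (h5 : CmpP.{u})
    (h6 : KapP.{u}) (h7 : TwoNormP.{u}) : TC2P.{u} := by
  intro D _ _ _ φ a b ha hb hdim η hη
  obtain ⟨H, iN, iI, iC, π, ρ, ξ, hrep⟩ := h1 D φ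
  obtain ⟨hFV, hπ⟩ := h2 D φ H π ρ ξ hrep
  have hS := hFV.star
  -- support projections
  obtain ⟨va, hva, hpa, -, hpx, -, hpy, -⟩ := h4 H (Set.range ρ) hS (π a) (hπ a)
  obtain ⟨vb, hvb, hqa, -, hqx, -, hqy, -⟩ := h4 H (Set.range ρ) hS (π b) (hπ b)
  set p : H →L[ℂ] H := va * star va with hp
  set q : H →L[ℂ] H := vb * star vb with hq
  have hpN : p ∈ (Set.range ρ).centralizer := Set.mul_mem_centralizer hva (star_cent hS hva)
  have hqN : q ∈ (Set.range ρ).centralizer := Set.mul_mem_centralizer hvb (star_cent hS hvb)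
  -- comparison of traces
  have hcmp : ∀ z, CP (Set.range ρ) z → tr ξ (z * p) ≤ tr ξ (z * q) := by
    intro z hz
    by_cases hz0 : z = 0
    · rw [hz0, zero_mul, zero_mul]
    · obtain ⟨σ, hσ⟩ := h3 D φ H π ρ ξ hrep z hz hz0
      rw [← hσ a p ha hpN hpa hpx hpy, ← hσ b q hb hqN hqa hqx hqy]
      have htr : 0 ≤ tr ξ z := by
        have e : tr ξ z = ‖z ξ‖ ^ 2 := by
          unfold tr
          have hzz : z = star z * z := by
            rw [hz.2.1.isSelfAdjoint.star_eq]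
            exact hz.2.1.isIdempotentElem.eq.symm
          conv_lhs => rw [hzz]
          rw [mul_apply_eq_comp, ContinuousLinearMap.star_eq_adjoint,
            ContinuousLinearMap.adjoint_inner_right, inner_self_eq_norm_sq_to_K]
          norm_cast
        rw [e]
        positivity
      exact mul_le_mul_of_nonneg_right (hdim σ).le htr
  obtain ⟨v, hvN, hvv, hqv⟩ := h5 H (Set.range ρ) ξ hFV p hpN q hqN hpa hqa hcmp
  have hvnorm : ‖v‖ ≤ 1 := by
    have e : ‖v‖ * ‖v‖ = ‖p‖ := by rw [← hvv, CStarRing.norm_star_mul_self]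
    have := proj_norm_le hpa
    nlinarith [norm_nonneg v]
  obtain ⟨hstar2, htwo⟩ := h7 H (Set.range ρ) ξ hFV
  -- the square root of `a`
  obtain ⟨r, hr0, hra⟩ : ∃ r : D, 0 ≤ r ∧ r * r = a :=
    ⟨CFC.sqrt a, CFC.sqrt_nonneg a, CFC.sqrt_mul_sqrt_self a ha⟩
  have hrs : star r = r := hr0.isSelfAdjoint.star_eq
  set s : H →L[ℂ] H := π r with hs
  have hss : s * s = π a := by rw [hs, ← map_mul, hra]
  have hsstar : star s = s := by rw [hs, ← map_star, hrs]
  have hps : p * s = s := by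
    have e : (1 - p) * s * star ((1 - p) * s) = 0 := by
      rw [star_mul, hsstar]
      have : (1 - p) * s * (s * star (1 - p)) = (1 - p) * (s * s) * star (1 - p) := by
        simp only [mul_assoc]
      rw [this, hss, sub_mul, one_mul, hpx, sub_self, zero_mul]
    have e2 : (1 - p) * s = 0 := by
      rw [CStarRing.mul_star_self_eq_zero_iff] at e
      exact e
    rw [sub_mul, one_mul, sub_eq_zero] at e2
    exact e2.symm
  have hsp : s * p * s = π a := by rw [mul_assoc, hps, hss]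
  -- the size of the approximation
  obtain ⟨ε, hε, hεη⟩ : ∃ ε : ℝ, 0 < ε ∧ (‖s‖ * ‖s‖ * (3 * ε)) ^ 2 < η := by
    refine ⟨Real.sqrt η / (6 * (‖s‖ * ‖s‖ + 1)), by positivity, ?_⟩
    have hsq : 0 < Real.sqrt η := Real.sqrt_pos.mpr hη
    have e1 : ‖s‖ * ‖s‖ * (3 * (Real.sqrt η / (6 * (‖s‖ * ‖s‖ + 1)))) ≤ Real.sqrt η / 2 := by
      have hpos : 0 < ‖s‖ * ‖s‖ + 1 := by positivity
      have : ‖s‖ * ‖s‖ * (3 * (Real.sqrt η / (6 * (‖s‖ * ‖s‖ + 1))))
          = (‖s‖ * ‖s‖ / (‖s‖ * ‖s‖ + 1)) * (Real.sqrt η / 2) := by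
        field_simp
        ring
      rw [this]
      apply mul_le_of_le_one_left (by positivity)
      rw [div_le_one hpos]
      linarith
    have e0 : 0 ≤ ‖s‖ * ‖s‖ * (3 * (Real.sqrt η / (6 * (‖s‖ * ‖s‖ + 1)))) := by positivity
    have e2 : Real.sqrt η ^ 2 = η := Real.sq_sqrt hη.le
    nlinarith
  -- the cut off of `b`
  have hYs : star (π b) = π b := by rw [← map_star, hb.isSelfAdjoint.star_eq]
  obtain ⟨δ, hδ, hconv⟩ := q_conv (π b) q hqx hYs hqa hqy ξ ε hε
  obtain ⟨m, hmsa, hmb, hm1, hm2⟩ := approx b hb δ hδ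
  set T : H →L[ℂ] H := π (m * b * m) with hT
  have hTe : T = π m * π b * π m := by rw [hT, map_mul, map_mul]
  have hTnorm : ‖T‖ ≤ 1 := (NonUnitalStarAlgHom.norm_apply_le π _).trans hm1
  have hTN : T ∈ (Set.range ρ).centralizer := hπ _
  have hqT : ‖(q - T) ξ‖ < ε := by
    rw [hTe]
    apply hconv
    · rw [← map_mul, ← map_mul, hmb]
    · rw [← hTe]
      exact hTnorm
    · have : π b - π m * π b * π m * π b = π (b - m * b * m * b) := by
        simp only [map_sub, map_mul]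
      rw [this]
      exact (NonUnitalStarAlgHom.norm_apply_le π _).trans hm2
  -- Kaplansky
  obtain ⟨y₀, hy₀, hy₁⟩ := h6 D φ H π ρ ξ hrep v hvN hvnorm ε hε
  set w : H →L[ℂ] H := π y₀ with hw
  have hwN : w ∈ (Set.range ρ).centralizer := hπ _
  have hwnorm : ‖w‖ ≤ 1 := (NonUnitalStarAlgHom.norm_apply_le π _).trans hy₀
  have hvw : ‖(v - w) ξ‖ < ε := by
    have : (v - w) ξ = -(w ξ - v ξ) := by
      show v ξ - w ξ = _
      abel
    rw [this, norm_neg]
    exact hy₁
  have hvwN : v - w ∈ (Set.range ρ).centralizer := by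
    intro x hx
    rw [mul_sub, sub_mul, hvN x hx, hwN x hx]
  have hqTN : q - T ∈ (Set.range ρ).centralizer := by
    intro x hx
    rw [mul_sub, sub_mul, hqN x hx, hTN x hx]
  have h1N : (1 : H →L[ℂ] H) ∈ (Set.range ρ).centralizer := by
    intro x hx
    rw [mul_one, one_mul]
  have hone : ‖(1 : H →L[ℂ] H)‖ ≤ 1 := ContinuousLinearMap.norm_id_le
  set t : H →L[ℂ] H := p - star w * T * w with ht
  have htN : t ∈ (Set.range ρ).centralizer := by
    have h8 : star w * T * w ∈ (Set.range ρ).centralizer :=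
      Set.mul_mem_centralizer (Set.mul_mem_centralizer (star_cent hS hwN) hTN) hwN
    intro x hx
    rw [ht, mul_sub, sub_mul, hpN x hx, h8 x hx]
  have hte : t = star v * (q - T) * v + 1 * star (v - w) * (T * v)
      + (star w * T) * (v - w) * 1 := by
    have hpe : p = star v * q * v := by rw [mul_assoc, hqv, hvv]
    rw [ht, hpe, star_sub]
    noncomm_ring
  have b1 : ‖(star v * (q - T) * v) ξ‖ ≤ ε := by
    refine (htwo (star v) (star_cent hS hvN) (q - T) hqTN v hvN).trans ?_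
    rw [norm_star]
    have hv0 := norm_nonneg v
    have h9 : ‖v‖ * ‖v‖ ≤ 1 := by nlinarith
    calc ‖v‖ * ‖v‖ * ‖(q - T) ξ‖ ≤ 1 * ‖(q - T) ξ‖ := by gcongr
      _ ≤ ε := by rw [one_mul]; exact hqT.le
  have b2 : ‖(1 * star (v - w) * (T * v)) ξ‖ ≤ ε := by
    refine (htwo 1 h1N (star (v - w)) (star_cent hS hvwN) (T * v)
      (Set.mul_mem_centralizer hTN hvN)).trans ?_
    rw [hstar2 _ hvwN]
    have h9 : ‖T * v‖ ≤ 1 := by
      refine (norm_mul_le _ _).trans ?_
      have := norm_nonneg v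
      have := norm_nonneg T
      nlinarith
    have h10 : ‖(1 : H →L[ℂ] H)‖ * ‖T * v‖ ≤ 1 := by
      have := norm_nonneg (T * v)
      have := norm_nonneg (1 : H →L[ℂ] H)
      nlinarith
    calc ‖(1 : H →L[ℂ] H)‖ * ‖T * v‖ * ‖(v - w) ξ‖ ≤ 1 * ‖(v - w) ξ‖ := by gcongr
      _ ≤ ε := by rw [one_mul]; exact hvw.le
  have b3 : ‖((star w * T) * (v - w) * 1) ξ‖ ≤ ε := by
    refine (htwo (star w * T) (Set.mul_mem_centralizer (star_cent hS hwN) hTN) (v - w) hvwN 1
      h1N).trans ?_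
    have h9 : ‖star w * T‖ ≤ 1 := by
      refine (norm_mul_le _ _).trans ?_
      rw [norm_star]
      have := norm_nonneg w
      have := norm_nonneg T
      nlinarith
    have h10 : ‖star w * T‖ * ‖(1 : H →L[ℂ] H)‖ ≤ 1 := by
      have := norm_nonneg (star w * T)
      have := norm_nonneg (1 : H →L[ℂ] H)
      nlinarith
    calc ‖star w * T‖ * ‖(1 : H →L[ℂ] H)‖ * ‖(v - w) ξ‖ ≤ 1 * ‖(v - w) ξ‖ := by gcongr
      _ ≤ ε := by rw [one_mul]; exact hvw.le
  have htξ : ‖t ξ‖ ≤ 3 * ε := by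
    rw [hte]
    show ‖(star v * (q - T) * v) ξ + (1 * star (v - w) * (T * v)) ξ
      + ((star w * T) * (v - w) * 1) ξ‖ ≤ 3 * ε
    refine (norm_add_le _ _).trans ?_
    have := norm_add_le ((star v * (q - T) * v) ξ) ((1 * star (v - w) * (T * v)) ξ)
    linarith
  -- conclusion
  refine ⟨m * y₀ * r, ?_⟩
  have hW : π (a - star (m * y₀ * r) * b * (m * y₀ * r)) = s * t * s := by
    have e1 : star (m * y₀ * r) * b * (m * y₀ * r) = r * (star y₀ * (m * b * m) * y₀) * r := by
      rw [star_mul, star_mul, hrs, hmsa.star_eq]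
      simp only [mul_assoc]
    rw [e1, map_sub, map_mul, map_mul, map_mul, map_mul, map_star, ← hT, ← hw, ← hs, ht, mul_sub,
      sub_mul, hsp]
  set W : D := a - star (m * y₀ * r) * b * (m * y₀ * r) with hWdef
  have hWs : star W = W := by
    rw [hWdef]
    generalize m * y₀ * r = c
    rw [star_sub, star_mul, star_mul, star_star, hb.isSelfAdjoint.star_eq,
      ha.isSelfAdjoint.star_eq, mul_assoc]
  have hφ : (φ.φ (W * W)).re = ‖π W ξ‖ ^ 2 := by
    rw [← hrep.inner]
    have : π (W * W) = star (π W) * π W := by rw [← map_star, hWs, map_mul]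
    rw [this, mul_apply_eq_comp, ContinuousLinearMap.star_eq_adjoint,
      ContinuousLinearMap.adjoint_inner_right, inner_self_eq_norm_sq_to_K]
    norm_cast
  rw [hφ, hW]
  have hfin : ‖(s * t * s) ξ‖ ≤ ‖s‖ * ‖s‖ * (3 * ε) := by
    refine (htwo s (hπ r) t htN s (hπ r)).trans ?_
    gcongr
  refine lt_of_le_of_lt ?_ hεη
  exact pow_le_pow_left₀ (norm_nonneg _) hfin 2

end RC
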